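import Pool.Agent.Y560.TG.Stm

/-!
Project TG: FAM1, infinitely many simultaneous variations.
-/

set_option autoImplicit false

namespace Pool.Agent.H70TG

open Set MeasureTheory
open Pool.Agent.H899R2.VP (St Adj PIso BF IsoOn idOn inv comp zipSet)
open Pool.Agent.H533R2.VO (RS lift put OS Ic RIso Dich VC BlkV S_FINAL)
open Pool.Agent.H566P (ar R2 v2 a0 a1 lt ac co mk LA LL MB lab sh prec pull S_ACC S_MSG)
open Pool.Agent.Y560.TG

section aux

variable {Γ : Type} [Group Γ] {g : ℕ → Γ} {α : Ordinal.{0}} {R : R2} {y d : ℕ → ℕ}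
  {V : ℕ → R2}

theorem idx_some (hd : ∀ j k, j ≠ k → Disjoint (Ob R (y j) (d j)) (Ob R (y k) (d k)))
    {x k : ℕ} : idx R y d x = some k ↔ x ∈ Ob R (y k) (d k) := by
  unfold idx
  split_ifs with h
  · constructor
    · intro h1
      have h2 := h.choose_spec
      rw [Option.some.injEq] at h1
      rwa [h1] at h2
    · intro h1
      rw [Option.some.injEq]
      by_contra h2
      exact (disjoint_left.1 (hd _ _ h2) h.choose_spec) h1
  · constructor
    · intro h1; exact absurd h1 (by simp)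
    · intro h1; exact absurd ⟨k, h1⟩ h

theorem idx_none {x : ℕ} : idx R y d x = none ↔ ∀ k, x ∉ Ob R (y k) (d k) := by
  unfold idx
  split_ifs with h
  · constructor
    · intro h1; exact absurd h1 (by simp)
    · intro h1
      obtain ⟨k, hk⟩ := h
      exact absurd hk (h1 k)
  · simp only [true_iff]
    intro k hk
    exact h ⟨k, hk⟩

theorem idx_y (h : Fm g α R y d V) (k : ℕ) : idx R y d (y k) = none :=
  idx_none.2 fun j => h.out k j

theorem off_refl (O : Set ℕ) (R : R2) : Off O R R :=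
  ⟨fun _ _ _ => Iff.rfl, fun _ _ _ _ => Iff.rfl, fun _ _ _ => Iff.rfl⟩

theorem pick_cases (R : R2) (V : ℕ → R2) (S : Set ℕ) (k : ℕ) :
    pick R V S (some k) = R ∨ ∃ s, s / 2 = k ∧ pick R V S (some k) = V s := by
  unfold pick
  simp only
  split_ifs with h1 h2
  · exact Or.inr ⟨_, by omega, rfl⟩
  · exact Or.inr ⟨_, by omega, rfl⟩
  · exact Or.inl rfl

theorem pick_off (h : Fm g α R y d V) (S : Set ℕ) (k : ℕ) :
    Off (Ob R (y k) (d k)) R (pick R V S (some k)) := by
  rcases pick_cases R V S k with h1 | ⟨s, rfl, h1⟩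
  · rw [h1]; exact off_refl _ _
  · rw [h1]; exact h.off s

theorem pick_bf (h : Fm g α R y d V) (S : Set ℕ) (k : ℕ) :
    BF (lift (lb R (y k))) (lift (lb (pick R V S (some k)) (y k)))
      (Ob R (y k) (d k)) (Ob R (y k) (d k)) α ∅ := by
  rcases pick_cases R V S k with h1 | ⟨s, rfl, h1⟩
  · rw [h1]; exact (BF.refl _ _ _).subset (empty_subset _)
  · rw [h1]; exact h.bf s

theorem fx_lt {S : Set ℕ} {a b : ℕ} : lt (FX R y d V S) a b ↔
    if idx R y d a = idx R y d b then lt (pick R V S (idx R y d a)) a b else lt R a b := by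
  unfold FX
  rw [lt_mk]

theorem fx_ac {S : Set ℕ} {n a b : ℕ} : ac (FX R y d V S) n a b ↔
    if idx R y d a = idx R y d b then ac (pick R V S (idx R y d a)) n a b else ac R n a b := by
  unfold FX
  rw [ac_mk]

theorem fx_co {S : Set ℕ} {n a : ℕ} : co (FX R y d V S) n a ↔
    co (pick R V S (idx R y d a)) n a := by
  unfold FX
  rw [co_mk]

theorem fx_lt_ne {S : Set ℕ} {a b : ℕ} (h : idx R y d a ≠ idx R y d b) :
    lt (FX R y d V S) a b ↔ lt R a b := by
  rw [fx_lt, if_neg h]

theorem fx_ac_ne {S : Set ℕ} {n a b : ℕ} (h : idx R y d a ≠ idx R y d b) :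
    ac (FX R y d V S) n a b ↔ ac R n a b := by
  rw [fx_ac, if_neg h]

theorem fx_lt_c {S : Set ℕ} {a b : ℕ} {c : Option ℕ} (h1 : idx R y d a = c)
    (h2 : idx R y d b = c) : lt (FX R y d V S) a b ↔ lt (pick R V S c) a b := by
  rw [fx_lt, if_pos (h1.trans h2.symm), h1]

theorem fx_ac_c {S : Set ℕ} {n a b : ℕ} {c : Option ℕ} (h1 : idx R y d a = c)
    (h2 : idx R y d b = c) : ac (FX R y d V S) n a b ↔ ac (pick R V S c) n a b := by
  rw [fx_ac, if_pos (h1.trans h2.symm), h1]

theorem fx_co_c {S : Set ℕ} {n a : ℕ} {c : Option ℕ} (h1 : idx R y d a = c) :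
    co (FX R y d V S) n a ↔ co (pick R V S c) n a := by
  rw [fx_co, h1]

theorem fx_lt_none {S : Set ℕ} {a b : ℕ} (h1 : idx R y d a = none) :
    lt (FX R y d V S) a b ↔ lt R a b := by
  by_cases h : idx R y d a = idx R y d b
  · rw [fx_lt_c h1 (h ▸ h1)]; rfl
  · exact fx_lt_ne h

theorem fx_ac_none {S : Set ℕ} {n a b : ℕ} (h1 : idx R y d a = none) :
    ac (FX R y d V S) n a b ↔ ac R n a b := by
  by_cases h : idx R y d a = idx R y d b
  · rw [fx_ac_c h1 (h ▸ h1)]; rfl
  · exact fx_ac_ne h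

/-- The action of `R` preserves the classes. -/
theorem idx_ac (hG : S_GEO) (hg : Function.Surjective g) (h : Fm g α R y d V) {n a b : ℕ}
    (hab : ac R n a b) : idx R y d a = idx R y d b := by
  have hi := (hG Γ g hg R h.mb).2.2.1
  rcases ha : idx R y d a with _ | k
  · symm
    rw [idx_none] at ha ⊢
    intro k hk
    exact ha k ((hi n _ _ _ _ hab).2 hk)
  · symm
    rw [idx_some h.dis] at ha ⊢
    exact (hi n _ _ _ _ hab).1 ha

theorem idx_fxac (hG : S_GEO) (hg : Function.Surjective g) (h : Fm g α R y d V) {S : Set ℕ}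
    {n a b : ℕ} (hab : ac (FX R y d V S) n a b) : idx R y d a = idx R y d b := by
  by_contra h1
  rw [fx_ac_ne h1] at hab
  exact h1 (idx_ac hG hg h hab)

/-- Labels over `y k` in `pick`. -/
theorem q_pick (hG : S_GEO) (hg : Function.Surjective g) (h : Fm g α R y d V) (S : Set ℕ)
    (k m v : ℕ) : Q (pick R V S (some k)) (y k) m v ↔ Q R (y k) m v := by
  have ho := pick_off h S k
  have hi := (hG Γ g hg R h.mb).2.2.1
  have hy := h.out k k
  obtain ⟨n, rfl | rfl⟩ : ∃ n, m = 2 * n ∨ m = 2 * n + 1 := ⟨m / 2, by omega⟩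
  · rw [Q_even, Q_even]
    refine exists_congr fun z => ?_
    rw [ho.2.1 n (y k) z (fun h1 => hy h1.1)]
    refine and_congr_right fun h1 => ?_
    have hz : z ∉ Ob R (y k) (d k) := fun h2 => hy ((hi n _ _ _ _ h1).2 h2)
    exact ho.1 z v (fun h2 => hz h2.1)
  · rw [Q_odd, Q_odd]
    exact ho.2.1 n (y k) v (fun h1 => hy h1.1)

/-- Labels over `y k` in `FX`. -/
theorem q_fx (hG : S_GEO) (hg : Function.Surjective g) (h : Fm g α R y d V) (S : Set ℕ)
    (k m v : ℕ) : Q (FX R y d V S) (y k) m v ↔ Q R (y k) m v := by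
  have hy := idx_y h k
  obtain ⟨n, rfl | rfl⟩ : ∃ n, m = 2 * n ∨ m = 2 * n + 1 := ⟨m / 2, by omega⟩
  · rw [Q_even, Q_even]
    refine exists_congr fun z => ?_
    rw [fx_ac_none hy]
    refine and_congr_right fun h1 => ?_
    have hz : idx R y d z = none := by rw [← idx_ac hG hg h h1]; exact hy
    exact fx_lt_none hz
  · rw [Q_odd, Q_odd]
    exact fx_ac_none hy

/-- F1 -/
theorem f1 (hGL : S_GL) (hG : S_GEO) (hg : Function.Surjective g) (h : Fm g α R y d V)
    (S : Set ℕ) : BF (lift R) (lift (FX R y d V S)) univ univ α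
      (idOn {x | ∀ k, x ∉ Ob R (y k) (d k)}) := by
  have hgeo := (hG Γ g hg R h.mb).2.2.2.2.1
  let M : Option ℕ → R2 := fun c => match c with
    | none => ex (fun k v => v = k) R
    | some k => lb R (y k)
  let M' : Option ℕ → R2 := fun c => match c with
    | none => ex (fun k v => v = k) R
    | some k => lb (pick R V S (some k)) (y k)
  refine (hGL (Option ℕ) (idx R y d) R (FX R y d V S) M M' ?_ ?_ ?_ ?_).1 α _ ?_ ?_
  · intro a b hab
    exact fx_lt_ne hab
  · intro n a b hab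
    exact idx_ac hG hg h hab
  · intro n a b hab
    exact idx_fxac hG hg h hab
  · intro c q hq hp
    rcases c with _ | k
    · -- names
      have hp' : PIso (lift (ex (fun k v => v = k) R)) (lift (ex (fun k v => v = k) R)) q := hp
      rw [piso_ex] at hp'
      have he : ∀ u ∈ q, u.1 = u.2 := fun u hu => ((hp'.2 u.1 u hu).1 rfl).symm
      refine ⟨?_, fun u hu w _ => ?_⟩
      · rw [piso_iff]
        refine ⟨fun u hu v hv => ?_, fun u hu v hv => ?_, fun n u hu v hv => ?_,
          fun n u hu => ?_⟩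
        · rw [he u hu, he v hv]
        · rw [← he u hu, ← he v hv, fx_lt_none (hq u hu).1]
        · rw [← he u hu, ← he v hv, fx_ac_none (hq u hu).1]
        · rw [← he u hu, fx_co_c (hq u hu).1]; rfl
      · rw [he u hu]; exact ⟨Iff.rfl, Iff.rfl⟩
    · have hp' : PIso (lift (lb R (y k))) (lift (lb (pick R V S (some k)) (y k))) q := hp
      unfold lb at hp'
      rw [piso_ex] at hp'
      obtain ⟨hp1, hp2⟩ := hp'
      rw [piso_iff] at hp1
      refine ⟨?_, fun u hu w hw => ?_⟩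
      · rw [piso_iff]
        refine ⟨hp1.1, fun u hu v hv => ?_, fun n u hu v hv => ?_, fun n u hu => ?_⟩
        · rw [hp1.2.1 u hu v hv, fx_lt_c (hq u hu).2 (hq v hv).2]
        · rw [hp1.2.2.1 n u hu v hv, fx_ac_c (hq u hu).2 (hq v hv).2]
        · rw [hp1.2.2.2 n u hu, fx_co_c (hq u hu).2]
      · have h1 : sl R (y k) u.1 u.2 := fun m =>
          (hp2 m u hu).trans (q_pick hG hg h S k m u.2)
        refine hgeo (y k) (d k) u.1 ((idx_some h.dis).1 (hq u hu).1) u.2
          ((idx_some h.dis).1 (hq u hu).2) h1 w ?_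
        intro h2
        exact hw ((idx_some h.dis).2 h2)
  · rintro ⟨u, v⟩ ⟨hu, _⟩
    simp only at hu
    rw [hu]
  · intro c
    rcases c with _ | k
    · refine (BF.refl (lift (ex (fun k v => v = k) R)) {x | idx R y d x = none} α).subset ?_
      rintro ⟨u, v⟩ ⟨⟨h1, h2⟩, h3⟩
      exact ⟨h1, h3⟩
    · have e : {x | idx R y d x = some k} = Ob R (y k) (d k) := by
        ext x
        exact idx_some h.dis
      rw [e]
      refine (pick_bf h S k).subset ?_
      rintro ⟨u, v⟩ ⟨⟨h1, h2⟩, h3⟩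
      exact absurd ((idx_some h.dis).1 h3) (h2 k)

/-- F3 -/
theorem f3 (hG : S_GEO) (hg : Function.Surjective g) (h : Fm g α R y d V)
    (S : Set ℕ) (k : ℕ) : Ob (FX R y d V S) (y k) (d k) = Ob R (y k) (d k) := by
  obtain ⟨g1, g2, g3, g4, -⟩ := hG Γ g hg R h.mb
  have hdk : idx R y d (d k) = some k := (idx_some h.dis).2 (g1 _ _)
  ext x
  constructor
  · rintro ⟨n, m, z, w, hz, hw, h1, h2, h3⟩
    have hz' : idx R y d z = some k := by rw [← idx_fxac hG hg h hz]; exact hdk
    have hw' : idx R y d w = some k := by rw [← idx_fxac hG hg h hw]; exact hdk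
    by_contra hx
    have hx' : idx R y d x ≠ some k := fun h4 => hx ((idx_some h.dis).1 h4)
    rw [fx_lt_ne (by rw [hz']; exact hx')] at h1
    rw [fx_lt_ne (by rw [hw']; exact fun h4 => hx' h4.symm)] at h2
    refine hx (g4 (y k) (d k) z w ((idx_some h.dis).1 hz') ((idx_some h.dis).1 hw') ?_ x h1 h2)
    intro j
    rw [← q_fx hG hg h S, ← q_fx hG hg h S]
    exact h3 j
  · intro hx
    have hx' : idx R y d x = some k := (idx_some h.dis).2 hx
    have hbf := pick_bf h S k
    have h4 : BF (lift (lb R (y k))) (lift (lb (pick R V S (some k)) (y k)))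
      (Ob R (y k) (d k)) (Ob R (y k) (d k)) ((4 : ℕ) : Ordinal.{0}) ∅ :=
      hbf.mono (((Ordinal.natCast_lt_omega0 4).le).trans h.om)
    have l34 : ((3 : ℕ) : Ordinal.{0}) < ((4 : ℕ) : Ordinal.{0}) := by norm_num
    have l23 : ((2 : ℕ) : Ordinal.{0}) < ((3 : ℕ) : Ordinal.{0}) := by norm_num
    have l12 : ((1 : ℕ) : Ordinal.{0}) < ((2 : ℕ) : Ordinal.{0}) := by norm_num
    have l01 : ((0 : ℕ) : Ordinal.{0}) < ((1 : ℕ) : Ordinal.{0}) := by norm_num
    obtain ⟨d', hd', h5⟩ := h4.back l34 (g1 (y k) (d k))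
    obtain ⟨x', hx1, h6⟩ := h5.back l23 hx
    have e := g2 _ _ _ hd'
    have hx2 : x' ∈ Ob R (y k) d' := by rw [e]; exact hx1
    obtain ⟨n, m, z', w', hz', hw', h7, h8, h9⟩ := hx2
    have hzO : z' ∈ Ob R (y k) (d k) := (g3 _ _ _ _ _ hz').1 hd'
    have hwO : w' ∈ Ob R (y k) (d k) := (g3 _ _ _ _ _ hw').1 hd'
    obtain ⟨z, hz, h10⟩ := h6.forth l12 hzO
    obtain ⟨w, hw, h11⟩ := h10.forth l01 hwO
    have hp := h11.piso
    unfold lb at hp
    rw [piso_ex] at hp
    obtain ⟨hp, hq⟩ := hp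
    have m1 : (w', w) ∈ (insert (w', w) (insert (z', z) (insert (x', x)
      (insert (d', d k) (∅ : Set (ℕ × ℕ)))))) := by simp
    have m2 : (z', z) ∈ (insert (w', w) (insert (z', z) (insert (x', x)
      (insert (d', d k) (∅ : Set (ℕ × ℕ)))))) := by simp
    have m3 : (x', x) ∈ (insert (w', w) (insert (z', z) (insert (x', x)
      (insert (d', d k) (∅ : Set (ℕ × ℕ)))))) := by simp
    have m4 : (d', d k) ∈ (insert (w', w) (insert (z', z) (insert (x', x)
      (insert (d', d k) (∅ : Set (ℕ × ℕ)))))) := by simp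
    have iz : idx R y d z = some k := (idx_some h.dis).2 hz
    have iw : idx R y d w = some k := (idx_some h.dis).2 hw
    refine ⟨n, m, z, w, ?_, ?_, ?_, ?_, ?_⟩
    · rw [fx_ac_c hdk iz]; exact (piso_ac hp m4 m2).1 hz'
    · rw [fx_ac_c hdk iw]; exact (piso_ac hp m4 m1).1 hw'
    · rw [fx_lt_c hx' iz]; exact fun h12 => h7 ((piso_lt hp m3 m2).2 h12)
    · rw [fx_lt_c iw hx']; exact fun h12 => h8 ((piso_lt hp m1 m3).2 h12)
    · intro j
      rw [q_fx hG hg h S, q_fx hG hg h S, ← q_pick hG hg h S, ← q_pick hG hg h S k j w]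
      exact ((hq j _ m2).symm.trans (h9 j)).trans (hq j _ m1)

/-- F4 -/
theorem f4 (hG : S_GEO) (hg : Function.Surjective g) (h : Fm g α R y d V)
    (S : Set ℕ) (k : ℕ) :
    IsoOn (lift (lb (pick R V S (some k)) (y k))) (lift (lb (FX R y d V S) (y k)))
    (Ob R (y k) (d k)) (Ob R (y k) (d k)) (idOn (Ob R (y k) (d k))) := by
  refine ⟨idOn (Ob R (y k) (d k)), Subset.rfl, ?_, ?_, fun x hx => ⟨x, rfl, hx⟩,
    fun x hx => ⟨x, rfl, hx⟩⟩
  · rintro ⟨u, v⟩ ⟨h1, h2⟩
    simp only at h1 h2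
    subst h1
    exact ⟨h2, h2⟩
  · unfold lb
    rw [piso_ex, piso_iff]
    refine ⟨⟨?_, ?_, ?_, ?_⟩, ?_⟩
    · rintro ⟨u, u'⟩ ⟨h1, _⟩ ⟨v, v'⟩ ⟨h2, _⟩
      simp only at h1 h2
      subst h1 h2
      exact Iff.rfl
    · rintro ⟨u, u'⟩ ⟨h1, h1'⟩ ⟨v, v'⟩ ⟨h2, h2'⟩
      simp only at h1 h2 h1' h2'
      subst h1 h2
      rw [fx_lt_c ((idx_some h.dis).2 h1') ((idx_some h.dis).2 h2')]
    · rintro n ⟨u, u'⟩ ⟨h1, h1'⟩ ⟨v, v'⟩ ⟨h2, h2'⟩
      simp only at h1 h2 h1' h2'
      subst h1 h2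
      rw [fx_ac_c ((idx_some h.dis).2 h1') ((idx_some h.dis).2 h2')]
    · rintro n ⟨u, u'⟩ ⟨h1, h1'⟩
      simp only at h1 h1'
      subst h1
      rw [fx_co_c ((idx_some h.dis).2 h1')]
    · rintro m ⟨u, u'⟩ ⟨h1, h1'⟩
      simp only at h1 h1'
      subst h1
      rw [q_fx hG hg h S, q_pick hG hg h S]

theorem pick_empty (c : Option ℕ) : pick R V ∅ c = R := by
  rcases c with _ | k
  · rfl
  · unfold pick
    simp

/-- F5 -/
theorem f5 : FX R y d V ∅ = R := by
  refine R2_ext (fun a b => ?_) (fun n a b => ?_) (fun n a => ?_)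
  · rw [fx_lt]
    split_ifs
    · rw [pick_empty]
    · rfl
  · rw [fx_ac]
    split_ifs
    · rw [pick_empty]
    · rfl
  · rw [fx_co, pick_empty]

theorem pick_se (ε : ℕ → Bool) (k : ℕ) :
    pick R V (Se ε) (some k) = if ε k = true then V (2 * k + 1) else V (2 * k) := by
  have h1 : 2 * k + 1 ∈ Se ε ↔ ε k = true := by
    constructor
    · rintro ⟨j, hj⟩
      cases hb : ε j
      · rw [hb] at hj; simp at hj; omega
      · rw [hb] at hj
        have : k = j := by simp at hj; omega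
        rw [this]; exact hb
    · intro hb
      exact ⟨k, by rw [hb]; rfl⟩
  have h2 : 2 * k ∈ Se ε ↔ ε k = false := by
    constructor
    · rintro ⟨j, hj⟩
      cases hb : ε j
      · rw [hb] at hj
        have : k = j := by simp at hj; omega
        rw [this]; exact hb
      · rw [hb] at hj; simp at hj; omega
    · intro hb
      exact ⟨k, by rw [hb]; rfl⟩
  unfold pick
  simp only [h1, h2]
  cases hb : ε k <;> simp

theorem clopen_coord (G : Bool → Prop) (k : ℕ) : IsClopen {ε : ℕ → Bool | G (ε k)} := by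
  have : IsClopen ((fun ε : ℕ → Bool => ε k) ⁻¹' {b | G b}) :=
    (isClopen_discrete {b : Bool | G b}).preimage (continuous_apply k)
  exact this

theorem clopen_pick (H : R2 → Prop) (c : Option ℕ) :
    IsClopen {ε : ℕ → Bool | H (pick R V (Se ε) c)} := by
  rcases c with _ | k
  · have : {ε : ℕ → Bool | H (pick R V (Se ε) none)} = {ε : ℕ → Bool | H R} := rfl
    rw [this]
    by_cases h : H R
    · simp only [h]; exact isClopen_univ
    · simp only [h]; exact isClopen_empty
  · simp only [pick_se]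
    exact clopen_coord (fun b => H (if b = true then V (2 * k + 1) else V (2 * k))) k

theorem clopen_const (p : Prop) : IsClopen {_ε : ℕ → Bool | p} := by
  by_cases h : p
  · simp only [h]; exact isClopen_univ
  · simp only [h]; exact isClopen_empty

/-- F6 -/
theorem f6 : Continuous (fun ε : ℕ → Bool => FX R y d V (Se ε)) := by
  refine cont_into (fun a b => ?_) (fun n a b => ?_) (fun n a => ?_)
  · simp only [fx_lt]
    by_cases h : idx R y d a = idx R y d b
    · simp only [h, if_true]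
      exact clopen_pick (fun W => lt W a b) _
    · simp only [h, if_false]
      exact clopen_const _
  · simp only [fx_ac]
    by_cases h : idx R y d a = idx R y d b
    · simp only [h, if_true]
      exact clopen_pick (fun W => ac W n a b) _
    · simp only [h, if_false]
      exact clopen_const _
  · simp only [fx_co]
    exact clopen_pick (fun W => co W n a) _

end aux

theorem t_FAM1 (hGL : S_GL) (hB : S_MBF) (hG : S_GEO) (_hT : S_TRQ) : S_FAM1 := by
  intro Γ _ g hg α R y d V h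
  refine ⟨fun S => f1 hGL hG hg h S, fun S => ?_, fun S k => f3 hG hg h S k,
    fun S k => f4 hG hg h S k, f5, f6⟩
  exact hB Γ g hg R (FX R y d V S) h.mb
    (((f1 hGL hG hg h S).mono h.om).subset (empty_subset _))

end Pool.Agent.H70TG
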